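import Pool.Agent.Helper69.TPF.St2

/-!
Project TPF (MP_2b710e_gt), module COR: exact coordinates.
-/

set_option autoImplicit false

namespace Pool.Agent.Helper40.TPF

open Pool.Agent.Helper69.TPF Pool.Agent.Helper6.TS

private theorem cor_section {α : Type} {F : Type} [Group F] (a : F →* FreeGroup α)
    (ha : Function.Surjective a) : ∃ κ : FreeGroup α →* F, ∀ p, a (κ p) = p := by
  choose f hf using fun i : α => ha (FreeGroup.of i)
  refine ⟨FreeGroup.lift f, fun p => ?_⟩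
  have h : a.comp (FreeGroup.lift f) = MonoidHom.id _ := by
    ext i
    simp [hf]
  exact DFunLike.congr_fun h p

private theorem cor_one (del : St_DEL) {g m : ℕ} {t : Fin g → Fin 3} (D : HexData g t)
    (k : Surf g) (w : FreeGroup (Fin g)) (hk : D.f0 k * w⁻¹ ∈ lev (FreeGroup (Fin g)) m) :
    ∃ p q : FreeGroup (Fin g), D.a12 p = D.a02 w ∧ D.a21 q = D.a01 w ∧
      D.f1 k * p⁻¹ ∈ lev (FreeGroup (Fin g)) m ∧ D.f2 k * q⁻¹ ∈ lev (FreeGroup (Fin g)) m := by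
  have hs12 : Function.Surjective D.a12 := by
    intro p
    obtain ⟨z, _, hz⟩ := D.hex 1 p
    obtain ⟨k, hk⟩ := D.s0 z
    exact ⟨D.f1 k, by rw [← D.c2 k, hk, hz]⟩
  have hs21 : Function.Surjective D.a21 := by
    intro p
    obtain ⟨z, hz, _⟩ := D.hex p 1
    obtain ⟨k, hk⟩ := D.s0 z
    exact ⟨D.f2 k, by rw [← D.c1 k, hk, hz]⟩
  obtain ⟨κ₂, hκ₂⟩ := cor_section D.a12 hs12
  obtain ⟨κ₁, hκ₁⟩ := cor_section D.a21 hs21
  obtain ⟨z, hz⟩ : ∃ z : FreeGroup (Fin g), z = D.f0 k * w⁻¹ := ⟨_, rfl⟩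
  rw [← hz] at hk
  obtain ⟨d, hd1, hd2, hd0⟩ := del g t D (κ₂ (D.a02 z)) (κ₁ (D.a01 z)) z (hκ₂ _) (hκ₁ _)
  have h0 : D.f0 (d⁻¹ * k) = w := by
    rw [map_mul, map_inv, hd0, hz]
    group
  refine ⟨D.f1 (d⁻¹ * k), D.f2 (d⁻¹ * k), ?_, ?_, ?_, ?_⟩
  · rw [← D.c2, h0]
  · rw [← D.c1, h0]
  · have h1 : D.f1 k * (D.f1 (d⁻¹ * k))⁻¹ = D.f1 d := by
      rw [map_mul, map_inv]
      group
    rw [h1, hd1]
    exact lev_map (κ₂.comp D.a02) hk
  · have h1 : D.f2 k * (D.f2 (d⁻¹ * k))⁻¹ = D.f2 d := by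
      rw [map_mul, map_inv]
      group
    rw [h1, hd2]
    exact lev_map (κ₁.comp D.a01) hk

theorem cCOR (del : St_DEL) : St_COR := by
  intro g m t D v X hv hX
  have h1 : ∀ s, ∃ p q : FreeGroup (Fin g), D.a12 p = D.a02 1 ∧ D.a21 q = D.a01 1 ∧
      D.f1 (X (s, false)) * p⁻¹ ∈ lev (FreeGroup (Fin g)) m ∧
      D.f2 (X (s, false)) * q⁻¹ ∈ lev (FreeGroup (Fin g)) m := fun s =>
    cor_one del D (X (s, false)) 1 (by rw [inv_one, mul_one]; exact (hX.2.2 s).1)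
  have h2 : ∀ s, ∃ p q : FreeGroup (Fin g), D.a12 p = D.a02 (v s) ∧ D.a21 q = D.a01 (v s) ∧
      D.f1 (X (s, true)) * p⁻¹ ∈ lev (FreeGroup (Fin g)) m ∧
      D.f2 (X (s, true)) * q⁻¹ ∈ lev (FreeGroup (Fin g)) m := fun s =>
    cor_one del D (X (s, true)) (v s) (hX.2.2 s).2
  choose α β a1 a2 a3 a4 using h1
  choose x y b1 b2 b3 b4 using h2
  refine ⟨α, β, x, y, fun s => ?_, fun s => ?_, fun s => ?_, fun s => ?_, fun s => ?_⟩
  · rw [a1 s, map_one]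
  · rw [a2 s, map_one]
  · rw [b1 s, (hv s).2]
  · rw [b2 s, (hv s).1]
  · exact ⟨a3 s, a4 s, b3 s, b4 s⟩

end Pool.Agent.Helper40.TPF
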