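import Pool.Agent.Helper69.TPF.St1

/-!
Project TPF (MP_2b710e_gt), module GRD: the graded centraliser.
-/

set_option autoImplicit false

namespace Pool.Agent.Helper40.TPF

open Pool.Agent.Helper69.TPF

variable {E G : Type} [Group E] [Group G]

private theorem grd_zero (π : E →* G) (h : G) : CC π h (0 : AA E) := by
  refine ⟨fun x hx => ?_, fun v _ => by simp⟩
  exact absurd (by simp) hx

private theorem grd_one (π : E →* G) : CC π 1 (1 : AA E) := by
  refine ⟨fun x hx => ?_, fun v _ => by simp⟩
  by_contra hne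
  apply hx
  have h1 : x ≠ 1 := by
    rintro rfl
    exact hne (map_one π)
  rw [MonoidAlgebra.one_def]
  classical
  rw [MonoidAlgebra.coeff_single, Finsupp.single_apply, if_neg (fun h => h1 h.symm)]

private theorem grd_add (π : E →* G) (h : G) (z w : AA E) (hz : CC π h z) (hw : CC π h w) :
    CC π h (z + w) := by
  refine ⟨fun x hx => ?_, fun v hv => ?_⟩
  · by_cases h1 : z.coeff x = 0
    · apply hw.1 x
      intro h2
      apply hx
      rw [MonoidAlgebra.coeff_add, Finsupp.add_apply, h1, h2, add_zero]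
    · exact hz.1 x h1
  · rw [mul_add, add_mul, hz.2 v hv, hw.2 v hv]

private theorem grd_smul (π : E →* G) (h : G) (c : ℂ) (z : AA E) (hz : CC π h z) :
    CC π h (c • z) := by
  refine ⟨fun x hx => ?_, fun v hv => ?_⟩
  · apply hz.1 x
    intro h1
    apply hx
    rw [MonoidAlgebra.coeff_smul, Finsupp.smul_apply, h1, smul_zero]
  · rw [mul_smul_comm, smul_mul_assoc, hz.2 v hv]

private theorem grd_sub (π : E →* G) (h : G) (z w : AA E) (hz : CC π h z) (hw : CC π h w) :
    CC π h (z - w) := by
  have h1 := grd_add π h z ((-1 : ℂ) • w) hz (grd_smul π h (-1) w hw)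
  rwa [neg_smul, one_smul, ← sub_eq_add_neg] at h1

private theorem grd_mul (π : E →* G) (h h' : G) (z w : AA E) (hz : CC π h z)
    (hw : CC π h' w) : CC π (h * h') (z * w) := by
  refine ⟨fun x hx => ?_, fun v hv => ?_⟩
  · classical
    have h1 : x ∈ (z * w).coeff.support := Finsupp.mem_support_iff.2 hx
    have h2 := MonoidAlgebra.support_coeff_mul_subset z w h1
    rw [Finset.mem_mul] at h2
    obtain ⟨a, ha, b, hb, hab⟩ := h2
    rw [← hab, map_mul, hz.1 a (Finsupp.mem_support_iff.1 ha),
      hw.1 b (Finsupp.mem_support_iff.1 hb)]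
  · rw [← mul_assoc, hz.2 v hv, mul_assoc, hw.2 v hv, mul_assoc]

private theorem grd_comm (π : E →* G) (h : G) (z w : AA E) (hz : CC π 1 z) (hw : CC π h w) :
    z * w = w * z := by
  have h1 : z = z.coeff.sum fun v r => r • (MonoidAlgebra.single v 1 : AA E) := by
    conv_lhs => rw [← MonoidAlgebra.sum_coeff_single z]
    congr 1
    funext v r
    rw [MonoidAlgebra.smul_single, smul_eq_mul, mul_one]
  rw [h1, Finsupp.sum, Finset.sum_mul, Finset.mul_sum]
  apply Finset.sum_congr rfl
  intro v hv
  rw [smul_mul_assoc, mul_smul_comm, hw.2 v (hz.1 v (Finsupp.mem_support_iff.1 hv))]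

theorem cGRD : St_GRD := by
  intro E G _ _ _ π
  refine ⟨grd_one π, grd_zero π, grd_add π, grd_smul π, grd_sub π, grd_mul π, grd_comm π, ?_⟩
  intro h h' z hz0 hz hz'
  have h1 : ∃ x, z.coeff x ≠ 0 := by
    by_contra hne
    push Not at hne
    apply hz0
    ext x
    rw [hne x]
    simp
  obtain ⟨x, hx⟩ := h1
  rw [← hz.1 x hx, ← hz'.1 x hx]

end Pool.Agent.Helper40.TPF
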