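import Pool.Agent.Helper69.TPF.St2

/-!
Project TPF (MP_2b710e_gt), module PRE: prescribed values on a generating tuple.
-/

set_option autoImplicit false

namespace Pool.Agent.Helper40.TPF

open Pool.Agent.Helper69.TPF

theorem cPRE (lfi : St_LFI) (rlf : St_RLF) : St_PRE := by
  intro g m y hy H _ _ hH w
  have hfin : Finite (FreeGroup (Fin g) ⧸ lev (FreeGroup (Fin g)) m) :=
    lfi (FreeGroup (Fin g)) m
  let θ₀ : Lq (FreeGroup (Fin g)) m →* Lq (FreeGroup (Fin g)) m := lmap (FreeGroup.lift y) m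
  have hmk : ∀ v : FreeGroup (Fin g), θ₀ (QuotientGroup.mk v)
      = QuotientGroup.mk (FreeGroup.lift y v) := fun v => rfl
  have hinj : Function.Injective θ₀ := by
    rw [injective_iff_map_eq_one]
    intro q hq
    obtain ⟨v, rfl⟩ := QuotientGroup.mk_surjective q
    rw [hmk, QuotientGroup.eq_one_iff] at hq
    exact (QuotientGroup.eq_one_iff v).2 (rlf g m y hy v hq)
  have hbij : Function.Bijective θ₀ := ⟨hinj, Finite.surjective_of_injective hinj⟩
  let θ : Lq (FreeGroup (Fin g)) m ≃* Lq (FreeGroup (Fin g)) m := MulEquiv.ofBijective θ₀ hbij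
  let ψ : Lq (FreeGroup (Fin g)) m →* H :=
    QuotientGroup.lift (lev (FreeGroup (Fin g)) m) (FreeGroup.lift w)
      fun x hx => lev_kill (FreeGroup.lift w) hH hx
  refine ⟨ψ.comp (θ.symm.toMonoidHom.comp (QuotientGroup.mk' _)), fun i => ?_⟩
  have h1 : θ (QuotientGroup.mk (FreeGroup.of i)) = QuotientGroup.mk (y i) := by
    show θ₀ (QuotientGroup.mk (FreeGroup.of i)) = _
    rw [hmk, FreeGroup.lift_apply_of]
  have h2 : θ.symm (QuotientGroup.mk (y i)) = QuotientGroup.mk (FreeGroup.of i) := by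
    rw [← h1, MulEquiv.symm_apply_apply]
  show ψ (θ.symm (QuotientGroup.mk (y i))) = w i
  rw [h2]
  show FreeGroup.lift w (FreeGroup.of i) = w i
  rw [FreeGroup.lift_apply_of]

end Pool.Agent.Helper40.TPF
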